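import Mathlib

/-!
# Colourful point sets and translates of a planar convex body (MP_70580c_co)

Definitions: the difference body and the Minkowski metric whose unit ball is half of it.
-/

namespace Pool.Agent.H57.Dol

open Set
open scoped Pointwise ENNReal NNReal

/-- The Euclidean plane. -/
abbrev Plane : Type := EuclideanSpace ℝ (Fin 2)

/-- The difference body `D(K) = K + (-K)`. -/
def diffBody (K : Set Plane) : Set Plane := K + (-K)

/-- The Minkowski metric whose unit ball is half of the difference body: the infimum of all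
`t ≥ 0` with `x - y ∈ t • (1/2) • D(K)`, which is `∞` if there is no such `t`. -/
noncomputable def rho (K : Set Plane) (x y : Plane) : ℝ≥0∞ :=
  ⨅ t ∈ {t : ℝ≥0 | x - y ∈ (t : ℝ) • ((1 / 2 : ℝ) • diffBody K)}, (t : ℝ≥0∞)

theorem mem_diffBody {K : Set Plane} {x : Plane} :
    x ∈ diffBody K ↔ ∃ a ∈ K, ∃ b ∈ K, x = a - b := by
  unfold diffBody
  rw [Set.mem_add]
  constructor
  · rintro ⟨a, ha, b, hb, rfl⟩
    exact ⟨a, ha, -b, by simpa using hb, by simp⟩
  · rintro ⟨a, ha, b, hb, rfl⟩
    exact ⟨a, ha, -b, by simpa using hb, by simp [sub_eq_add_neg]⟩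

theorem diffBody_convex {K : Set Plane} (hK : Convex ℝ K) : Convex ℝ (diffBody K) :=
  hK.add hK.neg

theorem diffBody_compact {K : Set Plane} (hK : IsCompact K) : IsCompact (diffBody K) :=
  hK.add hK.neg

theorem zero_mem_diffBody {K : Set Plane} (hK : K.Nonempty) : (0 : Plane) ∈ diffBody K := by
  obtain ⟨a, ha⟩ := hK
  exact mem_diffBody.2 ⟨a, ha, a, ha, by simp⟩

theorem neg_mem_diffBody {K : Set Plane} {x : Plane} (hx : x ∈ diffBody K) :
    -x ∈ diffBody K := by
  obtain ⟨a, ha, b, hb, rfl⟩ := mem_diffBody.1 hx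
  exact mem_diffBody.2 ⟨b, hb, a, ha, by simp⟩

theorem smul_mem_diffBody {K : Set Plane} (hK : Convex ℝ K) (hne : K.Nonempty) {x : Plane}
    (hx : x ∈ diffBody K) {t : ℝ} (h0 : 0 ≤ t) (h1 : t ≤ 1) : t • x ∈ diffBody K := by
  have := (diffBody_convex hK) hx (zero_mem_diffBody hne) h0 (by linarith : 0 ≤ 1 - t) (by ring)
  simpa using this

/-- `ρ(x, y) ≤ 2` forces `x - y ∈ D(K)`. -/
theorem mem_of_rho_le {K : Set Plane} (hK : IsCompact K) (hc : Convex ℝ K) (hne : K.Nonempty)
    {x y : Plane} (h : rho K x y ≤ 2) : x - y ∈ diffBody K := by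
  have key : ∀ n : ℕ, (2 / (2 + 1 / ((n : ℝ) + 1))) • (x - y) ∈ diffBody K := by
    intro n
    set e : ℝ := 1 / ((n : ℝ) + 1) with he
    have hepos : 0 < e := by rw [he]; positivity
    have hlt : rho K x y < ENNReal.ofReal (2 + e) := by
      refine lt_of_le_of_lt h ?_
      have : (2 : ℝ≥0∞) = ENNReal.ofReal 2 := by simp
      rw [this]
      exact (ENNReal.ofReal_lt_ofReal_iff (by linarith)).2 (by linarith)
    unfold rho at hlt
    rw [iInf_lt_iff] at hlt
    obtain ⟨t, ht⟩ := hlt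
    rw [iInf_lt_iff] at ht
    obtain ⟨htm, ht⟩ := ht
    have ht' : (t : ℝ) < 2 + e := by
      have h2 : (t : ℝ≥0∞) = ENNReal.ofReal (t : ℝ) := by
        rw [ENNReal.ofReal_coe_nnreal]
      rw [h2] at ht
      exact (ENNReal.ofReal_lt_ofReal_iff (by linarith)).1 ht
    obtain ⟨w, hw, hwx⟩ := Set.mem_smul_set.1 htm
    obtain ⟨d, hd, hdw⟩ := Set.mem_smul_set.1 hw
    have hx : (2 / (2 + e)) • (x - y) = ((t : ℝ) / (2 + e)) • d := by
      rw [← hwx, ← hdw, smul_smul, smul_smul]
      congr 1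
      field_simp
    rw [hx]
    refine smul_mem_diffBody hc hne hd (div_nonneg t.2 (by linarith)) ?_
    rw [div_le_one (by linarith)]
    exact ht'.le
  have hlim : Filter.Tendsto (fun n : ℕ => (2 / (2 + 1 / ((n : ℝ) + 1))) • (x - y))
      Filter.atTop (nhds (x - y)) := by
    have h1 : Filter.Tendsto (fun n : ℕ => 1 / ((n : ℝ) + 1)) Filter.atTop (nhds 0) :=
      tendsto_one_div_add_atTop_nhds_zero_nat
    have h2 : Filter.Tendsto (fun n : ℕ => 2 / (2 + 1 / ((n : ℝ) + 1))) Filter.atTop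
        (nhds (2 / (2 + 0))) :=
      Filter.Tendsto.div tendsto_const_nhds (tendsto_const_nhds.add h1) (by norm_num)
    have h3 := h2.smul_const (x - y)
    simpa using h3
  exact (diffBody_compact hK).isClosed.mem_of_tendsto hlim (Filter.Eventually.of_forall key)

end Pool.Agent.H57.Dol
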