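import Pool.Agent.H57.Dol.Defs

/-!
# Four translates
-/

namespace Pool.Agent.H57.Dol

open Set
open scoped Pointwise

/-- The determinant of two plane vectors. -/
def det2 (p q : Plane) : ℝ := p 0 * q 1 - p 1 * q 0

theorem det2_continuous : Continuous fun z : Plane × Plane => det2 z.1 z.2 := by
  unfold det2
  fun_prop

theorem cramer (p q d : Plane) : det2 p q • d = det2 d q • p + det2 p d • q := by
  ext i
  fin_cases i <;> simp [det2] <;> ring

/-- An Auerbach pair for the symmetric compact convex set `D(K)` (possibly degenerate). -/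
theorem auerbach {K : Set Plane} (hK : IsCompact K) (hne : K.Nonempty) :
    ∃ p ∈ diffBody K, ∃ q ∈ diffBody K, ∃ f g : Plane →ₗ[ℝ] ℝ,
      ∀ d ∈ diffBody K, |f d| ≤ 1 ∧ |g d| ≤ 1 ∧ d = f d • p + g d • q := by
  have hD := diffBody_compact hK
  have hDne : (diffBody K).Nonempty := ⟨0, zero_mem_diffBody hne⟩
  obtain ⟨⟨p, q⟩, hpq, hmax⟩ := (hD.prod hD).exists_isMaxOn (hDne.prod hDne)
    det2_continuous.continuousOn
  have hp : p ∈ diffBody K := hpq.1
  have hq : q ∈ diffBody K := hpq.2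
  have hmax' : ∀ a ∈ diffBody K, ∀ b ∈ diffBody K, det2 a b ≤ det2 p q :=
    fun a ha b hb => hmax (show (a, b) ∈ diffBody K ×ˢ diffBody K from ⟨ha, hb⟩)
  have habs : ∀ a ∈ diffBody K, ∀ b ∈ diffBody K, |det2 a b| ≤ det2 p q := by
    intro a ha b hb
    rw [abs_le]
    refine ⟨?_, hmax' a ha b hb⟩
    have := hmax' (-a) (neg_mem_diffBody ha) b hb
    have h2 : det2 (-a) b = -det2 a b := by simp [det2]; ring
    linarith
  have h0 : 0 ≤ det2 p q := le_trans (abs_nonneg _) (habs p hp q hq)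
  rcases h0.eq_or_lt with hz | hpos
  · -- degenerate case
    obtain ⟨r, hr, hrmax⟩ := hD.exists_isMaxOn hDne (continuous_norm.continuousOn (s := diffBody K))
    by_cases hr0 : r = 0
    · refine ⟨0, zero_mem_diffBody hne, 0, zero_mem_diffBody hne, 0, 0, ?_⟩
      intro d hd
      have h1 : ‖d‖ ≤ ‖r‖ := hrmax hd
      rw [hr0, norm_zero] at h1
      have : d = 0 := norm_le_zero_iff.1 h1
      simp [this]
    · have hrn : 0 < ‖r‖ := norm_pos_iff.2 hr0
      refine ⟨r, hr, 0, zero_mem_diffBody hne, (‖r‖ ^ 2)⁻¹ • (innerSL ℝ r).toLinearMap, 0, ?_⟩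
      intro d hd
      have hdet : det2 r d = 0 := by
        have := habs r hr d hd
        rw [← hz] at this
        exact abs_nonpos_iff.1 this
      have hnd : ‖d‖ ≤ ‖r‖ := hrmax hd
      refine ⟨?_, by simp, ?_⟩
      · simp only [LinearMap.smul_apply, ContinuousLinearMap.coe_coe, innerSL_apply_apply,
          smul_eq_mul]
        rw [abs_mul, abs_inv, abs_of_pos (by positivity : 0 < ‖r‖ ^ 2),
          inv_mul_le_iff₀ (by positivity), mul_one]
        calc |inner ℝ r d| ≤ ‖r‖ * ‖d‖ := abs_real_inner_le_norm r d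
          _ ≤ ‖r‖ * ‖r‖ := by gcongr
          _ = ‖r‖ ^ 2 := by ring
      · simp only [LinearMap.smul_apply, ContinuousLinearMap.coe_coe, innerSL_apply_apply,
          smul_eq_mul, LinearMap.zero_apply, zero_smul, add_zero]
        have h1 : ‖r‖ ^ 2 = r 0 ^ 2 + r 1 ^ 2 := by
          rw [EuclideanSpace.norm_sq_eq]; simp [Fin.sum_univ_two]
        have h2 : (inner ℝ r d : ℝ) = r 0 * d 0 + r 1 * d 1 := by
          simp [PiLp.inner_apply, Fin.sum_univ_two]; ring
        have h3 : (0 : ℝ) < r 0 ^ 2 + r 1 ^ 2 := by rw [← h1]; positivity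
        simp only [det2] at hdet
        rw [h1, h2]
        ext i
        fin_cases i
        · simp only [PiLp.smul_apply, smul_eq_mul, Fin.zero_eta]
          field_simp
          linear_combination (-r 1) * hdet
        · simp only [PiLp.smul_apply, smul_eq_mul, Fin.mk_one]
          field_simp
          linear_combination (r 0) * hdet
  · let M := det2 p q
    have hM : M ≠ 0 := hpos.ne'
    let f : Plane →ₗ[ℝ] ℝ :=
      { toFun := fun d => M⁻¹ * det2 d q
        map_add' := by intro a b; simp [det2]; ring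
        map_smul' := by intro a b; simp [det2]; ring }
    let g : Plane →ₗ[ℝ] ℝ :=
      { toFun := fun d => M⁻¹ * det2 p d
        map_add' := by intro a b; simp [det2]; ring
        map_smul' := by intro a b; simp [det2]; ring }
    refine ⟨p, hp, q, hq, f, g, ?_⟩
    intro d hd
    refine ⟨?_, ?_, ?_⟩
    · change |M⁻¹ * det2 d q| ≤ 1
      rw [abs_mul, abs_inv, abs_of_pos hpos, inv_mul_le_iff₀ hpos, mul_one]
      exact habs d hd q hq
    · change |M⁻¹ * det2 p d| ≤ 1
      rw [abs_mul, abs_inv, abs_of_pos hpos, inv_mul_le_iff₀ hpos, mul_one]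
      exact habs p hp d hd
    · change d = (M⁻¹ * det2 d q) • p + (M⁻¹ * det2 p d) • q
      rw [mul_smul, mul_smul, ← smul_add, ← cramer, smul_smul]
      change d = (M⁻¹ * M) • d
      rw [inv_mul_cancel₀ hM, one_smul]

/-- For one linear functional: some colour `i` and some `ε ≥ 0` such that the other colours have
spread at most `1 - ε` and everything has spread at most `1 + ε`. -/
theorem wide {ι : Type*} [Nontrivial ι] (X : ι → Set Plane) (hX : ∀ i, (X i).Nonempty)
    (f : Plane →ₗ[ℝ] ℝ) (h : ∀ i j, i ≠ j → ∀ x ∈ X i, ∀ y ∈ X j, f x - f y ≤ 1) :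
    ∃ i, ∃ e : ℝ, 0 ≤ e ∧
      (∀ a b, a ≠ i → b ≠ i → ∀ x ∈ X a, ∀ y ∈ X b, f x - f y ≤ 1 - e) ∧
      (∀ a b, ∀ x ∈ X a, ∀ y ∈ X b, f x - f y ≤ 1 + e) := by
  by_cases hw : ∀ i, ∀ x ∈ X i, ∀ y ∈ X i, f x - f y ≤ 1
  · obtain ⟨i, -⟩ := exists_pair_ne ι
    refine ⟨i, 0, le_rfl, ?_, ?_⟩
    · intro a b _ _ x hx y hy
      rw [sub_zero]
      by_cases hab : a = b
      · subst hab; exact hw a x hx y hy
      · exact h a b hab x hx y hy
    · intro a b x hx y hy
      rw [add_zero]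
      by_cases hab : a = b
      · subst hab; exact hw a x hx y hy
      · exact h a b hab x hx y hy
  · push Not at hw
    obtain ⟨i, x₀, hx₀, y₀, hy₀, hwide⟩ := hw
    obtain ⟨j, hj⟩ := exists_ne i
    obtain ⟨z₀, hz₀⟩ := hX j
    let S : Set ℝ := {r | ∃ x ∈ X i, ∃ y ∈ X i, r = f x - f y}
    have hSne : S.Nonempty := ⟨_, x₀, hx₀, y₀, hy₀, rfl⟩
    have hSb : BddAbove S := by
      refine ⟨2, ?_⟩
      rintro _ ⟨x, hx, y, hy, rfl⟩
      have h1 := h i j hj.symm x hx z₀ hz₀
      have h2 := h j i hj z₀ hz₀ y hy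
      linarith
    have hS1 : 1 < sSup S := lt_of_lt_of_le hwide (le_csSup hSb ⟨x₀, hx₀, y₀, hy₀, rfl⟩)
    have hout : ∀ a b, a ≠ i → b ≠ i → ∀ x ∈ X a, ∀ y ∈ X b, f x - f y ≤ 2 - sSup S := by
      intro a b ha hb x hx y hy
      have : sSup S ≤ 2 - (f x - f y) := by
        refine csSup_le hSne ?_
        rintro _ ⟨u, hu, v, hv, rfl⟩
        have h1 := h a i ha x hx v hv
        have h2 := h i b hb.symm u hu y hy
        linarith
      linarith
    refine ⟨i, sSup S - 1, by linarith, ?_, ?_⟩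
    · intro a b ha hb x hx y hy
      have := hout a b ha hb x hx y hy
      linarith
    · intro a b x hx y hy
      by_cases ha : a = i
      · by_cases hb : b = i
        · subst ha; subst hb
          have := le_csSup hSb ⟨x, hx, y, hy, rfl⟩
          linarith
        · have := h a b (by rw [ha]; exact fun hh => hb hh.symm) x hx y hy
          linarith
      · by_cases hb : b = i
        · have := h a b (by rw [hb]; exact ha) x hx y hy
          linarith
        · have := hout a b ha hb x hx y hy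
          linarith

/-- A box with side lengths `a`, `b`, `a + b ≤ 2`, in the Auerbach coordinates is covered by four
translates. -/
theorem box {K : Set Plane} (hc : Convex ℝ K) {p q : Plane} (hp : p ∈ diffBody K)
    (hq : q ∈ diffBody K) {a b : ℝ} (ha : 0 ≤ a) (hb : 0 ≤ b) (hab : a + b ≤ 2) (o : Plane) :
    ∃ v : Fin 4 → Plane, ∀ s t : ℝ, 0 ≤ s → s ≤ a → 0 ≤ t → t ≤ b →
      o + s • p + t • q ∈ ⋃ k, (v k +ᵥ K) := by
  obtain ⟨p₁, hp₁, p₀, hp₀, rfl⟩ := mem_diffBody.1 hp
  obtain ⟨q₁, hq₁, q₀, hq₀, rfl⟩ := mem_diffBody.1 hq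
  -- the small parallelogram inside `K`
  set w : Plane := (a / 2) • p₀ + (b / 2) • q₀ + (1 - a / 2 - b / 2) • p₀ with hw
  have hsmall : ∀ s t : ℝ, 0 ≤ s → s ≤ a / 2 → 0 ≤ t → t ≤ b / 2 →
      w + s • (p₁ - p₀) + t • (q₁ - q₀) ∈ K := by
    intro s t hs hs' ht ht'
    have h1 : ∃ u ∈ K, (a / 2) • u = (a / 2) • p₀ + s • (p₁ - p₀) := by
      rcases eq_or_lt_of_le ha with h0 | h0
      · have : s = 0 := by linarith
        exact ⟨p₀, hp₀, by rw [this]; simp⟩
      · refine ⟨(1 - s / (a / 2)) • p₀ + (s / (a / 2)) • p₁,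
          hc hp₀ hp₁ ?_ (by positivity) (by ring), ?_⟩
        · have : s / (a / 2) ≤ 1 := by rw [div_le_one (by linarith)]; exact hs'
          linarith
        · rw [smul_add, smul_smul, smul_smul]
          have e1 : a / 2 * (1 - s / (a / 2)) = a / 2 - s := by field_simp
          have e2 : a / 2 * (s / (a / 2)) = s := by field_simp
          rw [e1, e2]
          module
    have h2 : ∃ u ∈ K, (b / 2) • u = (b / 2) • q₀ + t • (q₁ - q₀) := by
      rcases eq_or_lt_of_le hb with h0 | h0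
      · have : t = 0 := by linarith
        exact ⟨q₀, hq₀, by rw [this]; simp⟩
      · refine ⟨(1 - t / (b / 2)) • q₀ + (t / (b / 2)) • q₁,
          hc hq₀ hq₁ ?_ (by positivity) (by ring), ?_⟩
        · have : t / (b / 2) ≤ 1 := by rw [div_le_one (by linarith)]; exact ht'
          linarith
        · rw [smul_add, smul_smul, smul_smul]
          have e1 : b / 2 * (1 - t / (b / 2)) = b / 2 - t := by field_simp
          have e2 : b / 2 * (t / (b / 2)) = t := by field_simp
          rw [e1, e2]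
          module
    obtain ⟨u, hu, hu'⟩ := h1
    obtain ⟨u', hu'K, hu''⟩ := h2
    have h3 : w + s • (p₁ - p₀) + t • (q₁ - q₀) =
        (a / 2) • u + (b / 2) • u' + (1 - a / 2 - b / 2) • p₀ := by
      rw [hu', hu'', hw]; module
    rw [h3]
    have h4 : (a / 2) • u + (b / 2) • u' + (1 - a / 2 - b / 2) • p₀ =
        ∑ i : Fin 3, (![a / 2, b / 2, 1 - a / 2 - b / 2] i) • (![u, u', p₀] i) := by
      simp [Fin.sum_univ_three]
    rw [h4]
    refine hc.sum_mem ?_ ?_ ?_
    · intro i _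
      fin_cases i
      · simp; linarith
      · simp; linarith
      · simp; linarith
    · simp [Fin.sum_univ_three]
    · intro i _
      fin_cases i <;> simp [hu, hu'K, hp₀]
  refine ⟨![o - w, o + (a / 2) • (p₁ - p₀) - w, o + (b / 2) • (q₁ - q₀) - w,
    o + (a / 2) • (p₁ - p₀) + (b / 2) • (q₁ - q₀) - w], ?_⟩
  intro s t hs hs' ht ht'
  rw [Set.mem_iUnion]
  rcases le_total s (a / 2) with h1 | h1 <;> rcases le_total t (b / 2) with h2 | h2
  · refine ⟨0, Set.mem_vadd_set.2 ⟨_, hsmall s t hs h1 ht h2, ?_⟩⟩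
    simp only [Matrix.cons_val_zero, vadd_eq_add]
    module
  · refine ⟨2, Set.mem_vadd_set.2 ⟨_, hsmall s (t - b / 2) hs h1 (by linarith) (by linarith), ?_⟩⟩
    simp only [Matrix.cons_val, vadd_eq_add]
    module
  · refine ⟨1, Set.mem_vadd_set.2 ⟨_, hsmall (s - a / 2) t (by linarith) (by linarith) ht h2, ?_⟩⟩
    simp only [Matrix.cons_val, vadd_eq_add]
    module
  · refine ⟨3, Set.mem_vadd_set.2 ⟨_, hsmall (s - a / 2) (t - b / 2) (by linarith) (by linarith)
      (by linarith) (by linarith), ?_⟩⟩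
    simp only [Matrix.cons_val, vadd_eq_add]
    module

theorem four_translates {K : Set Plane} (hK : IsCompact K) (hc : Convex ℝ K) (hne : K.Nonempty)
    {ι : Type*} [Nontrivial ι] (X : ι → Set Plane) (hX : ∀ i, (X i).Nonempty)
    (h : ∀ i j, i ≠ j → ∀ x ∈ X i, ∀ y ∈ X j, x - y ∈ diffBody K) :
    ∃ j, ∃ v : Fin 4 → Plane, (⋃ i ∈ {i | i ≠ j}, X i) ⊆ ⋃ k, (v k +ᵥ K) := by
  obtain ⟨p, hp, q, hq, f, g, hfg⟩ := auerbach hK hne
  obtain ⟨i₁, e₁, he₁, h11, h12⟩ := wide X hX f (by
    intro i j hij x hx y hy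
    have := (hfg _ (h i j hij x hx y hy)).1
    rw [map_sub] at this
    exact (abs_le.1 this).2)
  obtain ⟨i₂, e₂, he₂, h21, h22⟩ := wide X hX g (by
    intro i j hij x hx y hy
    have := (hfg _ (h i j hij x hx y hy)).2.1
    rw [map_sub] at this
    exact (abs_le.1 this).2)
  have key : ∃ j, ∃ a b : ℝ, a + b ≤ 2 ∧
      (∀ c d, c ≠ j → d ≠ j → ∀ x ∈ X c, ∀ y ∈ X d, f x - f y ≤ a ∧ g x - g y ≤ b) := by
    rcases le_total e₂ e₁ with hle | hle
    · exact ⟨i₁, 1 - e₁, 1 + e₂, by linarith, fun c d hc' hd x hx y hy =>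
        ⟨h11 c d hc' hd x hx y hy, h22 c d x hx y hy⟩⟩
    · exact ⟨i₂, 1 + e₁, 1 - e₂, by linarith, fun c d hc' hd x hx y hy =>
        ⟨h12 c d x hx y hy, h21 c d hc' hd x hx y hy⟩⟩
  obtain ⟨j, a, b, hab, hbox⟩ := key
  obtain ⟨j', hj'⟩ := exists_ne j
  obtain ⟨z, hz⟩ := hX j'
  set U : Set Plane := ⋃ i ∈ {i | i ≠ j}, X i with hU
  have hUmem : ∀ x, x ∈ U ↔ ∃ i, i ≠ j ∧ x ∈ X i := by
    intro x; simp [hU]
  have hzU : z ∈ U := (hUmem z).2 ⟨j', hj', hz⟩
  have hb1 : ∀ x ∈ U, ∀ y ∈ U, f x - f y ≤ a ∧ g x - g y ≤ b := by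
    intro x hx y hy
    obtain ⟨c, hc', hxc⟩ := (hUmem x).1 hx
    obtain ⟨d, hd, hyd⟩ := (hUmem y).1 hy
    exact hbox c d hc' hd x hxc y hyd
  have ha : 0 ≤ a := by have := (hb1 z hzU z hzU).1; simpa using this
  have hb : 0 ≤ b := by have := (hb1 z hzU z hzU).2; simpa using this
  have hfb : BddBelow (f '' U) := by
    refine ⟨f z - a, ?_⟩
    rintro _ ⟨x, hx, rfl⟩
    have := (hb1 z hzU x hx).1
    linarith
  have hgb : BddBelow (g '' U) := by
    refine ⟨g z - b, ?_⟩
    rintro _ ⟨x, hx, rfl⟩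
    have := (hb1 z hzU x hx).2
    linarith
  -- decomposition of differences
  have hdec : ∀ x ∈ U, x - z = f (x - z) • p + g (x - z) • q := by
    intro x hx
    obtain ⟨c, hc', hxc⟩ := (hUmem x).1 hx
    -- a point of the colour `j`
    obtain ⟨y, hy⟩ := hX j
    have h1 := (hfg _ (h c j hc' x hxc y hy)).2.2
    have h2 := (hfg _ (h j j' hj'.symm y hy z hz)).2.2
    have h3 : x - z = (x - y) + (y - z) := by abel
    calc x - z = (x - y) + (y - z) := h3
      _ = (f (x - y) • p + g (x - y) • q) + (f (y - z) • p + g (y - z) • q) := by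
          rw [← h1, ← h2]
      _ = f (x - z) • p + g (x - z) • q := by
          rw [h3, map_add, map_add]; module
  obtain ⟨v, hv⟩ := box hc hp hq ha hb hab
    (z + (sInf (f '' U) - f z) • p + (sInf (g '' U) - g z) • q)
  refine ⟨j, v, ?_⟩
  intro x hx
  have hx1 : x = z + (sInf (f '' U) - f z) • p + (sInf (g '' U) - g z) • q +
      (f x - sInf (f '' U)) • p + (g x - sInf (g '' U)) • q := by
    have h3 := hdec x hx
    rw [map_sub, map_sub] at h3
    have h4 : x = z + (x - z) := by abel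
    calc x = z + (x - z) := h4
      _ = z + ((f x - f z) • p + (g x - g z) • q) := by rw [← h3]
      _ = _ := by module
  rw [hx1]
  refine hv _ _ ?_ ?_ ?_ ?_
  · have := csInf_le hfb ⟨x, hx, rfl⟩
    linarith
  · have : f x - a ≤ sInf (f '' U) := by
      refine le_csInf ⟨_, z, hzU, rfl⟩ ?_
      rintro _ ⟨y, hy, rfl⟩
      have := (hb1 x hx y hy).1
      linarith
    linarith
  · have := csInf_le hgb ⟨x, hx, rfl⟩
    linarith
  · have : g x - b ≤ sInf (g '' U) := by
      refine le_csInf ⟨_, z, hzU, rfl⟩ ?_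
      rintro _ ⟨y, hy, rfl⟩
      have := (hb1 x hx y hy).2
      linarith
    linarith

end Pool.Agent.H57.Dol
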